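import Pool.Agent.Lib.MP_fb152f_pr.Final

/-! The case `d = 1` of both questions: the intensity of the unmatched blue points is strictly
increasing on `[0, 1]`. -/

open MeasureTheory FB

/-- There is a function `u` such that for every `p ∈ [0, 1]`: `u p ≥ 0`; there is a Poisson process
of intensity `1` on the line with independent colours, blue with probability `p`; and for every
such process there is almost surely exactly one stable matching, and for all `a ≤ b` the expected
number of blue points in `(a, b]` which it leaves unmatched is `u p * (b - a)`.  The function `u` is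
strictly increasing on `[0, 1]`. -/
theorem Pool.Agent.Results.MP_fb152f_pr.StrictlyIncreasing.result : ∃ u : ℝ → ℝ,
    (∀ p ∈ Set.Icc (0 : ℝ) 1, 0 ≤ u p ∧
      (∃ (Ω : Type) (_ : MeasurableSpace Ω) (P : Measure Ω) (_ : IsProbabilityMeasure P)
        (X : ℤ → Ω → ℝ) (c : ℤ → Ω → Bool), IsColouredPoisson p P X c) ∧
      ∀ (Ω : Type) (_ : MeasurableSpace Ω) (P : Measure Ω) (_ : IsProbabilityMeasure P)
        (X : ℤ → Ω → ℝ) (c : ℤ → Ω → Bool), IsColouredPoisson p P X c →
        (∀ᵐ ω ∂P, ∃! σ : ℤ → ℤ, IsStable (fun k => X k ω) (fun k => c k ω) σ) ∧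
        ∀ a b : ℝ, a ≤ b →
          ∫⁻ ω, ({k | k ∈ unmatchedBlue (fun j => X j ω) (fun j => c j ω) ∧
            X k ω ∈ Set.Ioc a b}.encard : ENNReal) ∂P = ENNReal.ofReal (u p * (b - a))) ∧
    StrictMonoOn u (Set.Icc 0 1) :=
  FB.main
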